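import Pool.Agent.helper55.RI.Spec

/-!
# X3: simulation of one TM2 statement by a function of the polynomial time library
-/

set_option autoImplicit false
set_option linter.unusedVariables false
set_option linter.unusedSectionVars false

namespace Pool.Agent.RI

open Pool.Agent.helper62 Prog Function Pool.Agent.helper81.PL

section X3

variable {K : Type} [DecidableEq K] {Γ : K → Type} {Λ σ : Type}

lemma X3_tab (N : ℕ) (g : ℕ → ℕ) (i : ℕ) (h : i < N) : ((List.range N).map g).getD i 0 = g i := by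
  rw [List.getD_eq_getElem?_getD, List.getElem?_map, List.getElem?_range h]
  rfl

lemma X3_tab2 (N : ℕ) (g : ℕ → List ℕ) (i : ℕ) (h : i < N) :
    ((List.range N).map g).getD i [] = g i := by
  rw [List.getD_eq_getElem?_getD, List.getElem?_map, List.getElem?_range h]
  rfl

lemma X3_var (n : Num K Γ Λ σ) (F : σ → ℕ) :
    ∃ φ : ℕ × ℕ × List (List ℕ) → ℕ, PT φ ∧
      ∀ (l : Option Λ) (v : σ) (S : ∀ k, List (Γ k)) (d : ℕ × ℕ × List (List ℕ)),
        n.Rp ⟨l, v, S⟩ d → φ d = F v := by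
  classical
  refine ⟨fun d => ((List.range n.N).map
    (fun i => if h : ∃ v, n.ns v = i then F h.choose else 0)).getD d.2.1 0, ?_, ?_⟩
  · generalize ((List.range n.N).map
      (fun i => if h : ∃ v, n.ns v = i then F h.choose else 0)) = t
    fun_prop
  · intro l v S d hd
    have h1 : d.2.1 = n.ns v := hd.2.1
    show ((List.range n.N).map
      (fun i => if h : ∃ v, n.ns v = i then F h.choose else 0)).getD d.2.1 0 = F v
    rw [h1, X3_tab _ _ _ (n.lts v)]
    have h2 : ∃ v', n.ns v' = n.ns v := ⟨v, rfl⟩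
    rw [dif_pos h2]
    exact congrArg F (n.injs h2.choose_spec)

/-- number of an optional symbol -/
def X3_no (n : Num K Γ Λ σ) (k : K) (o : Option (Γ k)) : ℕ :=
  match o with
  | none => 0
  | some g => n.ng k g + 1

lemma X3_head (n : Num K Γ Λ σ) (k : K) (l : List (Γ k)) :
    (l.map (n.ng k)).head?.elim 0 (fun i => i + 1) = X3_no n k l.head? := by
  cases l <;> rfl

lemma X3_top (n : Num K Γ Λ σ) (k : K) (F : σ → Option (Γ k) → ℕ) :
    ∃ φ : ℕ × ℕ × List (List ℕ) → ℕ, PT φ ∧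
      ∀ (l : Option Λ) (v : σ) (S : ∀ k, List (Γ k)) (d : ℕ × ℕ × List (List ℕ)),
        n.Rp ⟨l, v, S⟩ d → φ d = F v (S k).head? := by
  classical
  set P : ℕ → ℕ → σ × Option (Γ k) → Prop := fun i j p =>
    n.ns p.1 = i ∧ X3_no n k p.2 = j ∧ ∀ g, p.2 = some g → g ∈ n.G k with hP
  set T : List (List ℕ) := (List.range n.N).map (fun i => (List.range (n.N + 1)).map (fun j =>
    if h : ∃ p, P i j p then F h.choose.1 h.choose.2 else 0)) with hT
  refine ⟨fun d => (T.getD d.2.1 []).getD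
    ((d.2.2.getD (n.nk k) []).head?.elim 0 (fun i => i + 1)) 0, ?_, ?_⟩
  · clear_value T
    fun_prop
  · intro l v S d hd
    obtain ⟨-, h2, -, h4, h5⟩ := hd
    have h2' : d.2.1 = n.ns v := h2
    have h4' : d.2.2.getD (n.nk k) [] = (S k).map (n.ng k) := h4 k
    have h5' : ∀ g ∈ S k, g ∈ n.G k := h5 k
    have hin : ∀ g, (S k).head? = some g → g ∈ n.G k := by
      intro g hg
      exact h5' g (List.mem_of_head? hg)
    show (T.getD d.2.1 []).getD
      ((d.2.2.getD (n.nk k) []).head?.elim 0 (fun i => i + 1)) 0 = F v (S k).head?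
    rw [h2', h4', X3_head, hT, X3_tab2 _ _ _ (n.lts v)]
    have hlt : X3_no n k (S k).head? < n.N + 1 := by
      cases ho : (S k).head? with
      | none => simp [X3_no]
      | some g =>
        have := n.ltg k g (hin g ho)
        simp only [X3_no]
        omega
    rw [X3_tab _ _ _ hlt]
    have h6 : ∃ p, P (n.ns v) (X3_no n k (S k).head?) p := ⟨(v, (S k).head?), rfl, rfl, hin⟩
    rw [dif_pos h6]
    obtain ⟨h7, h8, h9⟩ := h6.choose_spec
    have e1 : h6.choose.1 = v := n.injs h7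
    have e2 : h6.choose.2 = (S k).head? := by
      cases ho : h6.choose.2 with
      | none =>
        rw [ho] at h8
        cases ho' : (S k).head? with
        | none => rfl
        | some g => rw [ho'] at h8; simp [X3_no] at h8
      | some g =>
        rw [ho] at h8
        cases ho' : (S k).head? with
        | none => rw [ho'] at h8; simp [X3_no] at h8
        | some g' =>
          rw [ho'] at h8
          simp only [X3_no, Nat.add_right_cancel_iff] at h8
          rw [n.injg k (h9 g ho) (hin g' ho') h8]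
    rw [e1, e2]

lemma X3_sz_set (L : List (List ℕ)) (i : ℕ) (x : List ℕ) (h : i < L.length) :
    sz (L.take i ++ x :: L.drop (i + 1)) + sz (L.getD i []) = sz L + sz x := by
  have h1 : L.getD i [] = L[i] := by
    rw [List.getD_eq_getElem?_getD, List.getElem?_eq_getElem h]; rfl
  have h2 : L = L.take i ++ L[i] :: L.drop (i + 1) := by
    rw [List.cons_getElem_drop_succ, List.take_append_drop]
  have h3 := sz_append (L.take i) (x :: L.drop (i + 1))
  have h4 := sz_append (L.take i) (L[i] :: L.drop (i + 1))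
  rw [← h2] at h4
  rw [sz_cons] at h3 h4
  rw [h1]
  omega

lemma X3_rp_set (n : Num K Γ Λ σ) (l : Option Λ) (v v' : σ) (S : ∀ k, List (Γ k))
    (d : ℕ × ℕ × List (List ℕ)) (hd : n.Rp ⟨l, v, S⟩ d) (k : K) (y : List (Γ k))
    (hy : ∀ g ∈ y, g ∈ n.G k) (x : List ℕ) (hx : x = y.map (n.ng k)) (j : ℕ) (hj : j = n.ns v') :
    n.Rp ⟨l, v', update S k y⟩
      (d.1, j, d.2.2.take (n.nk k) ++ x :: d.2.2.drop (n.nk k + 1)) := by
  obtain ⟨h1, h2, h3, h4, h5⟩ := hd
  have h1' : d.1 = n.nl l := h1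
  have h3' : d.2.2.length = n.N := h3
  have h4' : ∀ k, d.2.2.getD (n.nk k) [] = (S k).map (n.ng k) := h4
  have h5' : ∀ k, ∀ g ∈ S k, g ∈ n.G k := h5
  have hk : n.nk k < d.2.2.length := by rw [h3']; exact n.ltk k
  have hset : d.2.2.take (n.nk k) ++ x :: d.2.2.drop (n.nk k + 1) = d.2.2.set (n.nk k) x := by
    rw [List.set_eq_take_append_cons_drop, if_pos hk]
  refine ⟨h1', hj, ?_, ?_, ?_⟩
  · show (d.2.2.take (n.nk k) ++ x :: d.2.2.drop (n.nk k + 1)).length = n.N
    rw [hset, List.length_set, h3']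
  · intro k'
    show (d.2.2.take (n.nk k) ++ x :: d.2.2.drop (n.nk k + 1)).getD (n.nk k') [] =
      (update S k y k').map (n.ng k')
    rw [hset, List.getD_eq_getElem?_getD]
    by_cases hkk : k' = k
    · subst hkk
      rw [List.getElem?_set_self hk, update_self, hx]
      rfl
    · have hne : n.nk k ≠ n.nk k' := fun h => hkk (n.injk h).symm
      rw [List.getElem?_set_ne hne, update_of_ne hkk, ← List.getD_eq_getElem?_getD]
      exact h4' k'
  · intro k' g hg
    have hg' : g ∈ update S k y k' := hg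
    by_cases hkk : k' = k
    · subst hkk
      rw [update_self] at hg'
      exact hy g hg'
    · rw [update_of_ne hkk] at hg'
      exact h5' k' g hg'

lemma X3_rp_var (n : Num K Γ Λ σ) (l l' : Option Λ) (v v' : σ) (S : ∀ k, List (Γ k))
    (d : ℕ × ℕ × List (List ℕ)) (hd : n.Rp ⟨l, v, S⟩ d) (i j : ℕ) (hi : i = n.nl l')
    (hj : j = n.ns v') : n.Rp ⟨l', v', S⟩ (i, j, d.2.2) := by
  obtain ⟨h1, h2, h3, h4, h5⟩ := hd
  exact ⟨hi, hj, h3, h4, h5⟩

end X3

theorem X3 : X3_stmt := by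
  intro K _ Γ Λ σ n q
  induction q with
  | push k f q ih =>
    rintro ⟨hf, hq⟩
    obtain ⟨s, hs, C, h⟩ := ih hq
    obtain ⟨φ, hφ, hφe⟩ := X3_var n (fun v => n.ng k (f v))
    refine ⟨fun d => s (d.1, d.2.1, d.2.2.take (n.nk k) ++
      (φ d :: d.2.2.getD (n.nk k) []) :: d.2.2.drop (n.nk k + 1)), by fun_prop,
      C + (2 * n.N + 2), ?_⟩
    intro l v S d hd
    have hk : n.nk k < d.2.2.length := by rw [hd.2.2.1]; exact n.ltk k
    have hd' : n.Rp ⟨l, v, update S k (f v :: S k)⟩ (d.1, d.2.1, d.2.2.take (n.nk k) ++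
        (φ d :: d.2.2.getD (n.nk k) []) :: d.2.2.drop (n.nk k + 1)) := by
      refine X3_rp_set n l v v S d hd k (f v :: S k) ?_ _ ?_ _ hd.2.1
      · intro g hg
        rcases List.mem_cons.1 hg with h | h
        · rw [h]; exact hf v
        · exact hd.2.2.2.2 k g h
      · rw [List.map_cons, hφe l v S d hd, hd.2.2.2.1 k]
    have h1 := h l v _ _ hd'
    refine ⟨h1.1, h1.2.trans ?_⟩
    have h2 := X3_sz_set d.2.2 (n.nk k) (φ d :: d.2.2.getD (n.nk k) []) hk
    have h3 : φ d < n.N := by rw [hφe l v S d hd]; exact n.ltg k _ (hf v)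
    rw [sz_cons, sz_nat] at h2
    have h4 : sz d = sz d.1 + (sz d.2.1 + sz d.2.2 + 1) + 1 := by
      obtain ⟨a, b, c⟩ := d
      rw [sz_prod, sz_prod]
    rw [sz_prod, sz_prod, h4]
    omega
  | peek k f q ih =>
    intro hq
    obtain ⟨s, hs, C, h⟩ := ih hq
    obtain ⟨φ, hφ, hφe⟩ := X3_top n k (fun v o => n.ns (f v o))
    refine ⟨fun d => s (d.1, φ d, d.2.2), by fun_prop, C + 2 * n.N, ?_⟩
    intro l v S d hd
    have hd' : n.Rp ⟨l, f v (S k).head?, S⟩ (d.1, φ d, d.2.2) :=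
      X3_rp_var n l l v _ S d hd _ _ hd.1 (hφe l v S d hd)
    have h1 := h l _ _ _ hd'
    refine ⟨h1.1, h1.2.trans ?_⟩
    have h3 : φ d < n.N := by rw [hφe l v S d hd]; exact n.lts _
    have h4 : sz d = sz d.1 + (sz d.2.1 + sz d.2.2 + 1) + 1 := by
      obtain ⟨a, b, c⟩ := d
      rw [sz_prod, sz_prod]
    rw [sz_prod, sz_prod, h4, sz_nat, sz_nat, sz_nat]
    omega
  | pop k f q ih =>
    intro hq
    obtain ⟨s, hs, C, h⟩ := ih hq
    obtain ⟨φ, hφ, hφe⟩ := X3_top n k (fun v o => n.ns (f v o))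
    refine ⟨fun d => s (d.1, φ d, d.2.2.take (n.nk k) ++
      (d.2.2.getD (n.nk k) []).tail :: d.2.2.drop (n.nk k + 1)), by fun_prop,
      C + 2 * n.N, ?_⟩
    intro l v S d hd
    have hk : n.nk k < d.2.2.length := by rw [hd.2.2.1]; exact n.ltk k
    have hd' : n.Rp ⟨l, f v (S k).head?, update S k (S k).tail⟩ (d.1, φ d,
        d.2.2.take (n.nk k) ++ (d.2.2.getD (n.nk k) []).tail :: d.2.2.drop (n.nk k + 1)) := by
      refine X3_rp_set n l v _ S d hd k (S k).tail ?_ _ ?_ _ (hφe l v S d hd)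
      · intro g hg
        exact hd.2.2.2.2 k g (List.mem_of_mem_tail hg)
      · rw [hd.2.2.2.1 k, List.map_tail]
    have h1 := h l _ _ _ hd'
    refine ⟨h1.1, h1.2.trans ?_⟩
    have h2 := X3_sz_set d.2.2 (n.nk k) (d.2.2.getD (n.nk k) []).tail hk
    have h3 : φ d < n.N := by rw [hφe l v S d hd]; exact n.lts _
    have h5 : sz (d.2.2.getD (n.nk k) []).tail ≤ sz (d.2.2.getD (n.nk k) []) :=
      sz_sublist (List.tail_sublist _)
    have h4 : sz d = sz d.1 + (sz d.2.1 + sz d.2.2 + 1) + 1 := by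
      obtain ⟨a, b, c⟩ := d
      rw [sz_prod, sz_prod]
    rw [sz_prod, sz_prod, h4, sz_nat, sz_nat, sz_nat]
    omega
  | load f q ih =>
    intro hq
    obtain ⟨s, hs, C, h⟩ := ih hq
    obtain ⟨φ, hφ, hφe⟩ := X3_var n (fun v => n.ns (f v))
    refine ⟨fun d => s (d.1, φ d, d.2.2), by fun_prop, C + 2 * n.N, ?_⟩
    intro l v S d hd
    have hd' : n.Rp ⟨l, f v, S⟩ (d.1, φ d, d.2.2) :=
      X3_rp_var n l l v _ S d hd _ _ hd.1 (hφe l v S d hd)
    have h1 := h l _ _ _ hd'
    refine ⟨h1.1, h1.2.trans ?_⟩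
    have h3 : φ d < n.N := by rw [hφe l v S d hd]; exact n.lts _
    have h4 : sz d = sz d.1 + (sz d.2.1 + sz d.2.2 + 1) + 1 := by
      obtain ⟨a, b, c⟩ := d
      rw [sz_prod, sz_prod]
    rw [sz_prod, sz_prod, h4, sz_nat, sz_nat, sz_nat]
    omega
  | branch f q1 q2 ih1 ih2 =>
    rintro ⟨hq1, hq2⟩
    obtain ⟨s1, hs1, C1, h1⟩ := ih1 hq1
    obtain ⟨s2, hs2, C2, h2⟩ := ih2 hq2
    obtain ⟨φ, hφ, hφe⟩ := X3_var n (fun v => bif f v then 1 else 0)
    refine ⟨fun d => bif eqb (φ d) 1 then s1 d else s2 d, by fun_prop, C1 + C2, ?_⟩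
    intro l v S d hd
    have h3 := hφe l v S d hd
    cases hv : f v with
    | true =>
      have h4 : φ d = 1 := by rw [h3, hv]; rfl
      have h5 := h1 l v S d hd
      show n.Rp (bif f v then _ else _) (bif eqb (φ d) 1 then s1 d else s2 d) ∧
        sz (bif eqb (φ d) 1 then s1 d else s2 d) ≤ sz d + (C1 + C2)
      rw [hv, h4]
      exact ⟨h5.1, h5.2.trans (by omega)⟩
    | false =>
      have h4 : φ d = 0 := by rw [h3, hv]; rfl
      have h5 := h2 l v S d hd
      show n.Rp (bif f v then _ else _) (bif eqb (φ d) 1 then s1 d else s2 d) ∧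
        sz (bif eqb (φ d) 1 then s1 d else s2 d) ≤ sz d + (C1 + C2)
      rw [hv, h4]
      exact ⟨h5.1, h5.2.trans (by omega)⟩
  | goto f =>
    intro _
    obtain ⟨φ, hφ, hφe⟩ := X3_var n (fun v => n.nl (some (f v)))
    refine ⟨fun d => (φ d, d.2.1, d.2.2), by fun_prop, 2 * n.N, ?_⟩
    intro l v S d hd
    refine ⟨X3_rp_var n l (some (f v)) v v S d hd _ _ (hφe l v S d hd) hd.2.1, ?_⟩
    have h3 : φ d < n.N := by rw [hφe l v S d hd]; exact n.ltl _
    have h4 : sz d = sz d.1 + (sz d.2.1 + sz d.2.2 + 1) + 1 := by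
      obtain ⟨a, b, c⟩ := d
      rw [sz_prod, sz_prod]
    rw [sz_prod, sz_prod, h4, sz_nat, sz_nat]
    omega
  | halt =>
    intro _
    refine ⟨fun d => (n.nl none, d.2.1, d.2.2), by fun_prop, 2 * n.N, ?_⟩
    intro l v S d hd
    refine ⟨X3_rp_var n l none v v S d hd _ _ rfl hd.2.1, ?_⟩
    have h3 : n.nl none < n.N := n.ltl _
    have h4 : sz d = sz d.1 + (sz d.2.1 + sz d.2.2 + 1) + 1 := by
      obtain ⟨a, b, c⟩ := d
      rw [sz_prod, sz_prod]
    rw [sz_prod, sz_prod, h4, sz_nat, sz_nat]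
    omega

end Pool.Agent.RI
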